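import Pool.Agent.TOPR.Chain
import Pool.Agent.TOPR.R61135.Inst
import Pool.Agent.TOPR.R6116H.Inst

/-!
# Project TOP: the top range, up to circumradius `0.6119`

Convex bodies of width `1` in every direction whose circumradius lies in `[0.6042, 0.6119]` have
volume larger than the Meissner bodies.
-/

set_option autoImplicit false

namespace Pool.Agent.TOPR.Chain2

open Pool.Agent.Helper31.SR.FinT

/-- the seven ranges together -/
theorem top_6042_6119 : Top 0.6042 0.6119 :=
  (Pool.Agent.TOPR.Chain.top_6042_61135.trans Pool.Agent.TOPR.R61135.Inst.top).trans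
    Pool.Agent.TOPR.R6116H.Inst.top

end Pool.Agent.TOPR.Chain2
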