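import Pool.Agent.TOPR.R6042.Inst
import Pool.Agent.TOPR.R6078.Inst
import Pool.Agent.TOPR.R6094.Inst
import Pool.Agent.TOPR.R6104.Inst
import Pool.Agent.TOPR.R6109.Inst

/-!
# Project TOP: the top range

Bodies of constant width `1` whose circumradius lies in `[0.6042, 0.61135]` have volume larger than
the Meissner bodies.
-/

set_option autoImplicit false

namespace Pool.Agent.TOPR.Chain

open Pool.Agent.Helper31.SR.FinT

/-- the five ranges together -/
theorem top_6042_61135 : Top 0.6042 0.61135 :=
  (((Pool.Agent.TOPR.R6042.Inst.top.trans Pool.Agent.TOPR.R6078.Inst.top).trans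
    Pool.Agent.TOPR.R6094.Inst.top).trans Pool.Agent.TOPR.R6104.Inst.top).trans
      Pool.Agent.TOPR.R6109.Inst.top

end Pool.Agent.TOPR.Chain
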