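import Pool.Agent.TOPR.R6094.Val
import Pool.Agent.TOPR.R6094.Rows
import Pool.Agent.TOPR.R6094.NL
import Pool.Agent.Helper10.TOP.KR
import Pool.Agent.TOPU.U10_6
import Pool.Agent.TOPU.U10_7
import Pool.Agent.TOPU.U10_8
import Pool.Agent.TOPU.U10_9

/-!
# Project TOP: the range R6094
-/

set_option autoImplicit false
set_option linter.all false
set_option maxRecDepth 100000

namespace Pool.Agent.TOPR.R6094

open Helper10.PC hiding V3
open Helper80.CW.DL Pool.Agent.Helper6.TOP Pool.Agent.Helper45.TOP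

/-- the statements of a cell -/
abbrev PS : ℝ → ℝ → ℝ → ℝ → ℝ → ℝ → Prop := PSc c
abbrev PP : ℝ → ℝ → ℝ → ℝ → ℝ → ℝ → Prop := PPc c
abbrev PM : ℝ → ℝ → ℝ → ℝ → ℝ → ℝ → Prop := PMc c

/-- parameters of the checker -/
def par : Par := ⟨nat_lit 127, nat_lit 5, nat_lit 7, nat_lit 5, nat_lit 12, nat_lit 1536, cmx, row0, rows, cols⟩

theorem par_ok : par.ok = true := by decide +kernel

noncomputable def kS (U : UQ) (u : UC) (B : PB) (t : PT ℕ) : Bool :=
  Pool.Agent.Helper10KR.chkS U par AL CP11 NP11 CP12 NP12 CP22 NP22 u B t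
noncomputable def kP (U : UQ) (u : UC) (B : PB) (t : PT ℕ) : Bool :=
  Pool.Agent.Helper10KR.chkQ U par AL CQp NQp u B t
noncomputable def kM (U : UQ) (u : UC) (B : PB) (t : PT ℕ) : Bool :=
  Pool.Agent.Helper10KR.chkQ U par AL CQm NQm u B t

section
variable {U : UQ} {u : UC} {B : PB} {t : PT ℕ}

theorem kS_ok (hU : U.Good) (hf : U.hf = 127) (hg : U.g2 = 5) (hR : U.R = 1536) (hK : U.K = Kd)
    (h : kS U u B t = true) : BoxAll PS u B :=
  Pool.Agent.Helper10KR.chkS_ok hU par_ok hf hg hR (by rw [hK]; exact deg_ok)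
    (by rw [hR]; exact nl_P11) (by rw [hR]; exact nl_P12) (by rw [hR]; exact nl_P22)
    rows_eq cols_eq v_P11 v_P12 v_P22 h
theorem kP_ok (hU : U.Good) (hf : U.hf = 127) (hg : U.g2 = 5) (hR : U.R = 1536) (hK : U.K = Kd)
    (h : kP U u B t = true) : BoxAll PP u B :=
  Pool.Agent.Helper10KR.chkP_ok hU par_ok hf hg hR (by rw [hK]; exact deg_ok)
    (by rw [hR]; exact nl_Qp) rows_eq cols_eq v_Qp h
theorem kM_ok (hU : U.Good) (hf : U.hf = 127) (hg : U.g2 = 5) (hR : U.R = 1536) (hK : U.K = Kd)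
    (h : kM U u B t = true) : BoxAll PM u B :=
  Pool.Agent.Helper10KR.chkM_ok hU par_ok hf hg hR (by rw [hK]; exact deg_ok)
    (by rw [hR]; exact nl_Qm) rows_eq cols_eq v_Qm h

end

/-- the checkers of the three kinds -/
noncomputable def chkS (u : UC) (B : PB) (t : PT ℕ) : Bool :=
  cond (Nat.beq (nuC u) 6) (kS Pool.Agent.TOPU.U10_6.U u B t)
    (cond (Nat.beq (nuC u) 7) (kS Pool.Agent.TOPU.U10_7.U u B t)
    (cond (Nat.beq (nuC u) 8) (kS Pool.Agent.TOPU.U10_8.U u B t)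
    (kS Pool.Agent.TOPU.U10_9.U u B t)))
noncomputable def chkP (u : UC) (B : PB) (t : PT ℕ) : Bool :=
  cond (Nat.beq (nuC u) 6) (kP Pool.Agent.TOPU.U10_6.U u B t)
    (cond (Nat.beq (nuC u) 7) (kP Pool.Agent.TOPU.U10_7.U u B t)
    (cond (Nat.beq (nuC u) 8) (kP Pool.Agent.TOPU.U10_8.U u B t)
    (kP Pool.Agent.TOPU.U10_9.U u B t)))
noncomputable def chkM (u : UC) (B : PB) (t : PT ℕ) : Bool :=
  cond (Nat.beq (nuC u) 6) (kM Pool.Agent.TOPU.U10_6.U u B t)
    (cond (Nat.beq (nuC u) 7) (kM Pool.Agent.TOPU.U10_7.U u B t)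
    (cond (Nat.beq (nuC u) 8) (kM Pool.Agent.TOPU.U10_8.U u B t)
    (kM Pool.Agent.TOPU.U10_9.U u B t)))

theorem okS {u : UC} {B : PB} {t : PT ℕ} (h : chkS u B t = true) : BoxAll PS u B := by
  unfold chkS at h
  cases h6 : Nat.beq (nuC u) 6 with
  | true => rw [h6] at h; exact kS_ok Pool.Agent.TOPU.U10_6.good rfl rfl rfl rfl h
  | false =>
    rw [h6] at h
    cases h7 : Nat.beq (nuC u) 7 with
    | true => rw [h7] at h; exact kS_ok Pool.Agent.TOPU.U10_7.good rfl rfl rfl rfl h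
    | false =>
      rw [h7] at h
      cases h8 : Nat.beq (nuC u) 8 with
      | true => rw [h8] at h; exact kS_ok Pool.Agent.TOPU.U10_8.good rfl rfl rfl rfl h
      | false => rw [h8] at h; exact kS_ok Pool.Agent.TOPU.U10_9.good rfl rfl rfl rfl h

theorem okP {u : UC} {B : PB} {t : PT ℕ} (h : chkP u B t = true) : BoxAll PP u B := by
  unfold chkP at h
  cases h6 : Nat.beq (nuC u) 6 with
  | true => rw [h6] at h; exact kP_ok Pool.Agent.TOPU.U10_6.good rfl rfl rfl rfl h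
  | false =>
    rw [h6] at h
    cases h7 : Nat.beq (nuC u) 7 with
    | true => rw [h7] at h; exact kP_ok Pool.Agent.TOPU.U10_7.good rfl rfl rfl rfl h
    | false =>
      rw [h7] at h
      cases h8 : Nat.beq (nuC u) 8 with
      | true => rw [h8] at h; exact kP_ok Pool.Agent.TOPU.U10_8.good rfl rfl rfl rfl h
      | false => rw [h8] at h; exact kP_ok Pool.Agent.TOPU.U10_9.good rfl rfl rfl rfl h

theorem okM {u : UC} {B : PB} {t : PT ℕ} (h : chkM u B t = true) : BoxAll PM u B := by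
  unfold chkM at h
  cases h6 : Nat.beq (nuC u) 6 with
  | true => rw [h6] at h; exact kM_ok Pool.Agent.TOPU.U10_6.good rfl rfl rfl rfl h
  | false =>
    rw [h6] at h
    cases h7 : Nat.beq (nuC u) 7 with
    | true => rw [h7] at h; exact kM_ok Pool.Agent.TOPU.U10_7.good rfl rfl rfl rfl h
    | false =>
      rw [h7] at h
      cases h8 : Nat.beq (nuC u) 8 with
      | true => rw [h8] at h; exact kM_ok Pool.Agent.TOPU.U10_8.good rfl rfl rfl rfl h
      | false => rw [h8] at h; exact kM_ok Pool.Agent.TOPU.U10_9.good rfl rfl rfl rfl h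

end Pool.Agent.TOPR.R6094
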